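import Pool.Agent.V5helper49.LR.Stm3

/-!
# Project LR, job BRN: Brun's pure sieve with many classes
-/

set_option autoImplicit false

namespace Pool.Agent.V5helper81.LR

open Finset
open Pool.Agent.V5helper49.LR (S_BON S_CNT S_BRN z1 yy)

theorem brun_core (hB : S_BON) (hN : S_CNT) (P : Finset ℕ) (hP : ∀ p ∈ P, p.Prime) (C : ℕ → Finset ℕ)
    (hC : ∀ p ∈ P, C p ⊆ range p) (k : ℕ) (hk : ∀ p ∈ P, (C p).card ≤ k) (r : ℕ) (hr : Odd r) (N : ℕ) :
    (N : ℝ) * (∏ p ∈ P, (1 - ((C p).card : ℝ) / p) -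
      (∑ p ∈ P, ((C p).card : ℝ) / p) ^ (r + 1) / (r + 1).factorial) -
      (r + 1) * ((k : ℝ) * P.card + 1) ^ r ≤
      (((range N).filter fun s => ∀ p ∈ P, ¬ s % p ∈ C p).card : ℝ) := by
  classical
  set g : ℕ → ℝ := fun p => ((C p).card : ℝ) / p with hg
  set F : Finset ℕ → ℝ := fun K => (((range N).filter fun s => ∀ p ∈ K, s % p ∈ C p).card : ℝ) with hF
  have hg01 : ∀ p ∈ P, 0 ≤ g p ∧ g p ≤ 1 := by
    intro p hp
    have hp0 : (0 : ℝ) < p := by exact_mod_cast (hP p hp).pos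
    refine ⟨by simp only [hg]; positivity, ?_⟩
    simp only [hg]
    rw [div_le_one hp0]
    have := card_le_card (hC p hp)
    rw [card_range] at this
    exact_mod_cast this
  have h1 : ∑ j ∈ range (r + 1), (-1 : ℝ) ^ j * ∑ K ∈ P.powersetCard j, F K ≤
      (((range N).filter fun s => ∀ p ∈ P, ¬ s % p ∈ C p).card : ℝ) := by
    have e1 : ∀ s ∈ range N, ∑ j ∈ range (r + 1), (-1 : ℝ) ^ j *
        ∑ K ∈ P.powersetCard j, (if ∀ p ∈ K, s % p ∈ C p then (1 : ℝ) else 0) ≤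
        (if ∀ p ∈ P, ¬ s % p ∈ C p then (1 : ℝ) else 0) := by
      intro s _
      have := (hB P r hr).1 (fun p => s % p ∈ C p)
      convert this using 1
    have e2 := sum_le_sum e1
    rw [sum_boole, sum_comm] at e2
    refine le_trans (le_of_eq ?_) e2
    refine sum_congr rfl fun j _ => ?_
    rw [← mul_sum, sum_comm]
    congr 1
    refine sum_congr rfl fun K _ => ?_
    rw [hF, sum_boole]
  have h2 : ∀ j, ∀ K ∈ P.powersetCard j, |F K - N * ∏ p ∈ K, g p| ≤ (k : ℝ) ^ j := by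
    intro j K hK
    obtain ⟨hKP, hKj⟩ := mem_powersetCard.1 hK
    have e1 := hN K (fun p hp => hP p (hKP hp)) C (fun p hp => hC p (hKP hp)) N
    have e2 : |F K - N * ∏ p ∈ K, g p| ≤ ∏ p ∈ K, ((C p).card : ℝ) := by
      convert e1 using 1
    refine e2.trans ?_
    rw [← hKj]
    refine (Finset.prod_le_prod (fun p _ => Nat.cast_nonneg _) fun p hp => ?_).trans
      (le_of_eq (prod_const (k : ℝ)))
    exact_mod_cast hk p (hKP hp)
  have h3 : (N : ℝ) * ∑ j ∈ range (r + 1), (-1 : ℝ) ^ j * ∑ K ∈ P.powersetCard j, ∏ p ∈ K, g p -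
      ∑ j ∈ range (r + 1), ∑ K ∈ P.powersetCard j, (k : ℝ) ^ j ≤
      ∑ j ∈ range (r + 1), (-1 : ℝ) ^ j * ∑ K ∈ P.powersetCard j, F K := by
    rw [mul_sum, ← sum_sub_distrib]
    refine sum_le_sum fun j _ => ?_
    have e1 : (-1 : ℝ) ^ j * ∑ K ∈ P.powersetCard j, F K -
        N * ((-1 : ℝ) ^ j * ∑ K ∈ P.powersetCard j, ∏ p ∈ K, g p) =
        (-1 : ℝ) ^ j * ∑ K ∈ P.powersetCard j, (F K - N * ∏ p ∈ K, g p) := by
      rw [sum_sub_distrib, ← mul_sum]
      ring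
    have e2 : |(-1 : ℝ) ^ j * ∑ K ∈ P.powersetCard j, (F K - N * ∏ p ∈ K, g p)| ≤
        ∑ K ∈ P.powersetCard j, (k : ℝ) ^ j := by
      rw [abs_mul, abs_pow, abs_neg, abs_one, one_pow, one_mul]
      exact (abs_sum_le_sum_abs _ _).trans (sum_le_sum fun K hK => h2 j K hK)
    have e3 := (abs_le.1 e2).1
    linarith
  have h4 : ∑ j ∈ range (r + 1), ∑ K ∈ P.powersetCard j, (k : ℝ) ^ j ≤
      (r + 1) * ((k : ℝ) * P.card + 1) ^ r := by
    have e1 : ∀ j ∈ range (r + 1), ∑ K ∈ P.powersetCard j, (k : ℝ) ^ j ≤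
        ((k : ℝ) * P.card + 1) ^ r := by
      intro j hj
      rw [sum_const, card_powersetCard, nsmul_eq_mul]
      have e2 : ((P.card.choose j : ℕ) : ℝ) ≤ (P.card : ℝ) ^ j := by
        exact_mod_cast Nat.choose_le_pow P.card j
      calc ((P.card.choose j : ℕ) : ℝ) * (k : ℝ) ^ j ≤ (P.card : ℝ) ^ j * (k : ℝ) ^ j :=
            mul_le_mul_of_nonneg_right e2 (by positivity)
        _ = ((k : ℝ) * P.card) ^ j := by rw [mul_pow]; ring
        _ ≤ ((k : ℝ) * P.card + 1) ^ j := pow_le_pow_left₀ (by positivity) (by linarith) j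
        _ ≤ ((k : ℝ) * P.card + 1) ^ r := by
            refine pow_le_pow_right₀ ?_ (by have := mem_range.1 hj; omega)
            have : (0 : ℝ) ≤ (k : ℝ) * P.card := by positivity
            linarith
    refine (sum_le_sum e1).trans (le_of_eq ?_)
    rw [sum_const, card_range, nsmul_eq_mul]
    push_cast
    ring
  have h5 := (hB P r hr).2 g hg01
  have h6 : (N : ℝ) * (∏ p ∈ P, (1 - g p) - (∑ p ∈ P, g p) ^ (r + 1) / (r + 1).factorial) ≤
      (N : ℝ) * ∑ j ∈ range (r + 1), (-1 : ℝ) ^ j * ∑ K ∈ P.powersetCard j, ∏ p ∈ K, g p :=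
    mul_le_mul_of_nonneg_left h5 (Nat.cast_nonneg _)
  linarith

lemma one_sub_ge {g : ℝ} (h0 : 0 ≤ g) (h1 : g ≤ 1 / 2) : Real.exp (-(2 * g)) ≤ 1 - g := by
  -- `exp (2 g) (1 - g) ≥ (1 + 2 g) (1 - g) ≥ 1`
  have h2 : 2 * g + 1 ≤ Real.exp (2 * g) := Real.add_one_le_exp _
  rw [Real.exp_neg, inv_le_comm₀ (Real.exp_pos _) (by linarith)]
  refine le_trans ?_ h2
  rw [inv_le_comm₀ (by linarith) (by linarith), ← one_div, div_le_iff₀ (by linarith)]
  nlinarith

/-- the analytic part -/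
lemma brun_num {L a κ pg kk y : ℝ} {N : ℝ} (ha : 10 ≤ a) (hL : a ^ 8 ≤ L) (hκ0 : 0 ≤ κ)
    (hκ : κ ≤ 2 * a ^ 3) (hPi : Real.exp (-(2 * κ)) ≤ pg) (hkk : 0 ≤ kk) (hkk' : kk ≤ a)
    (hy : 0 ≤ y) (hy' : y ≤ Real.exp (a ^ 2)) (hN : Real.exp (L / 4) ≤ N) :
    ∃ r : ℕ, Odd r ∧ Real.exp (L / 5) ≤
      N * (pg - κ ^ (r + 1) / (r + 1).factorial) - (r + 1) * (kk * y + 1) ^ r := by
  have ha1 : (1 : ℝ) ≤ a := by linarith
  have ha3 : (1 : ℝ) ≤ a ^ 3 := one_le_pow₀ ha1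
  have ha3' : (1000 : ℝ) ≤ a ^ 3 := by
    calc (1000 : ℝ) = 10 ^ 3 := by norm_num
      _ ≤ a ^ 3 := pow_le_pow_left₀ (by norm_num) ha 3
  set q : ℕ := ⌈20 * a ^ 3⌉₊ with hq
  set r : ℕ := 2 * q + 1 with hr
  have hq1 : 20 * a ^ 3 ≤ q := Nat.le_ceil _
  have hq2 : (q : ℝ) < 20 * a ^ 3 + 1 := Nat.ceil_lt_add_one (by positivity)
  have hr1 : 40 * a ^ 3 ≤ (r : ℝ) := by rw [hr]; push_cast; linarith
  have hr2 : (r : ℝ) ≤ 50 * a ^ 3 := by rw [hr]; push_cast; linarith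
  refine ⟨r, ⟨q, rfl⟩, ?_⟩
  -- the tail
  have h1 : κ ^ (r + 1) / (r + 1).factorial ≤ Real.exp (-(4 * a ^ 3)) / 2 := by
    have e1 := Real.pow_div_factorial_le_exp (20 * κ) (by positivity) (r + 1)
    have e2 : κ ^ (r + 1) / (r + 1).factorial = (20 * κ) ^ (r + 1) / (r + 1).factorial / 20 ^ (r + 1) := by
      rw [mul_pow]
      field_simp
    have e3 : Real.exp (20 * κ) ≤ Real.exp 1 ^ (r + 1) := by
      rw [← Real.exp_nat_mul, mul_one]
      apply Real.exp_le_exp.2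
      push_cast
      linarith
    have e4 : κ ^ (r + 1) / (r + 1).factorial ≤ (Real.exp 1 / 20) ^ (r + 1) := by
      rw [e2, div_pow]
      exact div_le_div_of_nonneg_right (e1.trans e3) (by positivity)
    have e5 : Real.exp 1 / 20 ≤ Real.exp (-1) := by
      rw [Real.exp_neg, div_le_iff₀ (by norm_num), ← div_eq_inv_mul, le_div_iff₀ (Real.exp_pos _)]
      have := Real.exp_one_lt_d9
      have h0 := Real.exp_pos 1
      nlinarith
    have e6 : (Real.exp 1 / 20) ^ (r + 1) ≤ Real.exp (-(40 * a ^ 3)) := by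
      refine (pow_le_pow_left₀ (by positivity) e5 _).trans ?_
      rw [← Real.exp_nat_mul]
      apply Real.exp_le_exp.2
      push_cast
      linarith
    refine e4.trans (e6.trans ?_)
    rw [le_div_iff₀ (by norm_num)]
    have e7 : Real.exp (-(4 * a ^ 3)) = Real.exp (-(40 * a ^ 3)) * Real.exp (36 * a ^ 3) := by
      rw [← Real.exp_add]; congr 1; ring
    rw [e7]
    refine mul_le_mul_of_nonneg_left ?_ (Real.exp_pos _).le
    have := Real.add_one_le_exp (36 * a ^ 3)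
    linarith
  have h2 : Real.exp (-(4 * a ^ 3)) ≤ pg := by
    refine le_trans (Real.exp_le_exp.2 ?_) hPi
    linarith
  have h3 : Real.exp (-(4 * a ^ 3)) / 2 ≤ pg - κ ^ (r + 1) / (r + 1).factorial := by linarith
  -- the error
  have h4 : (r + 1 : ℝ) * (kk * y + 1) ^ r ≤ Real.exp (150 * a ^ 5) := by
    have e1 : kk * y + 1 ≤ Real.exp (2 * a ^ 2) := by
      have f1 : kk * y ≤ a * Real.exp (a ^ 2) := mul_le_mul hkk' hy' hy (by linarith)
      have f2 : (1 : ℝ) ≤ Real.exp (a ^ 2) := Real.one_le_exp (by positivity)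
      have f3 : a + 1 ≤ Real.exp a := Real.add_one_le_exp a
      have f4 : Real.exp a ≤ Real.exp (a ^ 2) := Real.exp_le_exp.2 (by nlinarith)
      have f5 : Real.exp (2 * a ^ 2) = Real.exp (a ^ 2) * Real.exp (a ^ 2) := by
        rw [← Real.exp_add]; congr 1; ring
      rw [f5]
      have f6 : (0 : ℝ) < Real.exp (a ^ 2) := Real.exp_pos _
      calc kk * y + 1 ≤ a * Real.exp (a ^ 2) + Real.exp (a ^ 2) := by linarith
        _ = (a + 1) * Real.exp (a ^ 2) := by ring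
        _ ≤ Real.exp (a ^ 2) * Real.exp (a ^ 2) :=
            mul_le_mul_of_nonneg_right (f3.trans f4) f6.le
    have e2 : (kk * y + 1) ^ r ≤ Real.exp (100 * a ^ 5) := by
      have f0 : (0 : ℝ) ≤ kk * y + 1 := by positivity
      refine (pow_le_pow_left₀ f0 e1 r).trans ?_
      rw [← Real.exp_nat_mul]
      apply Real.exp_le_exp.2
      calc (r : ℝ) * (2 * a ^ 2) ≤ (50 * a ^ 3) * (2 * a ^ 2) :=
            mul_le_mul_of_nonneg_right hr2 (by positivity)
        _ = 100 * a ^ 5 := by ring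
    have e3 : (r + 1 : ℝ) ≤ Real.exp (50 * a ^ 5) := by
      refine (Real.add_one_le_exp (r : ℝ)).trans (Real.exp_le_exp.2 (hr2.trans ?_))
      have : a ^ 3 ≤ a ^ 5 := pow_le_pow_right₀ ha1 (by norm_num)
      linarith
    calc (r + 1 : ℝ) * (kk * y + 1) ^ r ≤ Real.exp (50 * a ^ 5) * Real.exp (100 * a ^ 5) :=
          mul_le_mul e3 e2 (by positivity) (Real.exp_pos _).le
      _ = Real.exp (150 * a ^ 5) := by rw [← Real.exp_add]; congr 1; ring
  have ha8 : a ^ 8 = a ^ 3 * a ^ 5 := by ring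
  have ha5 : (1 : ℝ) ≤ a ^ 5 := one_le_pow₀ ha1
  have ha5' : (100000 : ℝ) ≤ a ^ 5 := by
    calc (100000 : ℝ) = 10 ^ 5 := by norm_num
      _ ≤ a ^ 5 := pow_le_pow_left₀ (by norm_num) ha 5
  have h5 : 150 * a ^ 5 ≤ L / 5 := by
    have : 1000 * a ^ 5 ≤ a ^ 3 * a ^ 5 := mul_le_mul_of_nonneg_right ha3' (by positivity)
    linarith
  have h6 : 2 ≤ L / 20 - 4 * a ^ 3 := by
    have : a ^ 3 * 100000 ≤ a ^ 3 * a ^ 5 := mul_le_mul_of_nonneg_left ha5' (by positivity)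
    linarith
  have h7 : 4 * Real.exp (L / 5) ≤ Real.exp (L / 4) * Real.exp (-(4 * a ^ 3)) := by
    have e1 : Real.exp (L / 4) * Real.exp (-(4 * a ^ 3)) =
        Real.exp (L / 20 - 4 * a ^ 3) * Real.exp (L / 5) := by
      rw [← Real.exp_add, ← Real.exp_add]; congr 1; ring
    rw [e1]
    refine mul_le_mul_of_nonneg_right ?_ (Real.exp_pos _).le
    have e2 : (2 : ℝ) + 1 ≤ Real.exp 2 := Real.add_one_le_exp 2
    have e3 : (2 : ℝ) ≤ Real.exp 1 := by have := Real.add_one_le_exp (1 : ℝ); linarith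
    have e4 : Real.exp 2 = Real.exp 1 * Real.exp 1 := by rw [← Real.exp_add]; norm_num
    have e5 : (4 : ℝ) ≤ Real.exp 2 := by rw [e4]; nlinarith
    exact e5.trans (Real.exp_le_exp.2 h6)
  have h8 : N * (Real.exp (-(4 * a ^ 3)) / 2) ≤ N * (pg - κ ^ (r + 1) / (r + 1).factorial) :=
    mul_le_mul_of_nonneg_left h3 ((Real.exp_pos _).le.trans hN)
  have h9 : Real.exp (L / 4) * (Real.exp (-(4 * a ^ 3)) / 2) ≤ N * (Real.exp (-(4 * a ^ 3)) / 2) :=
    mul_le_mul_of_nonneg_right hN (by positivity)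
  have h10 : Real.exp (150 * a ^ 5) ≤ Real.exp (L / 5) := Real.exp_le_exp.2 h5
  nlinarith [h7, h8, h9, h10, h4]

theorem t_BRN (hB : S_BON) (hN : S_CNT) : S_BRN := by
  classical
  intro ε hε0 hε1
  have hlim : Filter.Tendsto (fun X : ℕ => Real.log (X : ℝ) ^ (ε / 8)) Filter.atTop Filter.atTop :=
    (tendsto_rpow_atTop (by positivity)).comp (Real.tendsto_log_atTop.comp tendsto_natCast_atTop_atTop)
  obtain ⟨X₀, hX₀⟩ := Filter.eventually_atTop.1 (hlim.eventually_ge_atTop 10)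
  refine ⟨max X₀ 1, fun X hX T hT Q N hQ hXN n₀ ρ => ?_⟩
  set a := Real.log (X : ℝ) ^ (ε / 8) with ha
  set L := Real.log (X : ℝ) with hL
  have ha10 : 10 ≤ a := hX₀ X ((le_max_left _ _).trans hX)
  have hX1 : 1 ≤ X := (le_max_right _ _).trans hX
  have hXr : (1 : ℝ) ≤ X := by exact_mod_cast hX1
  have hL0 : 0 ≤ L := Real.log_nonneg hXr
  have hL1 : 1 ≤ L := by
    by_contra hcon
    push Not at hcon
    have : a ≤ 1 := Real.rpow_le_one hL0 hcon.le (by positivity)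
    linarith
  have ha8 : a ^ 8 ≤ L := by
    have e1 : a ^ 8 = L ^ ε := by
      rw [ha, ← Real.rpow_natCast, ← Real.rpow_mul hL0]
      congr 1
      push_cast
      ring
    rw [e1]
    calc L ^ ε ≤ L ^ (1 : ℝ) := Real.rpow_le_rpow_of_exponent_le hL1 hε1
      _ = L := Real.rpow_one L
  have ha2 : a ^ 2 = L ^ (ε / 4) := by
    rw [ha, ← Real.rpow_natCast, ← Real.rpow_mul hL0]
    congr 1
    push_cast
    ring
  set P : Finset ℕ := (Ioc (z1 X) (yy ε X)).filter Nat.Prime with hP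
  have hPp : ∀ p ∈ P, p.Prime := fun p hp => (mem_filter.1 hp).2
  have hPz : ∀ p ∈ P, z1 X < p ∧ p ≤ yy ε X := fun p hp => mem_Ioc.1 (mem_filter.1 hp).1
  set C : ℕ → Finset ℕ := fun p => (range p).filter fun s => ∃ t ∈ T, (n₀ + Q * s + t) % p = ρ p with hC
  have hCr : ∀ p ∈ P, C p ⊆ range p := fun p _ => filter_subset _ _
  have hCk : ∀ p ∈ P, (C p).card ≤ T.card := by
    intro p hp
    have e1 : C p ⊆ T.biUnion fun t => (range p).filter fun s => (n₀ + Q * s + t) % p = ρ p := by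
      intro s hs
      obtain ⟨h1, t, ht, h2⟩ := mem_filter.1 hs
      exact mem_biUnion.2 ⟨t, ht, mem_filter.2 ⟨h1, h2⟩⟩
    refine (card_le_card e1).trans (card_biUnion_le.trans ?_)
    refine (sum_le_sum (g := fun _ => 1) fun t _ => ?_).trans (by simp)
    rw [card_le_one]
    intro s hs s' hs'
    obtain ⟨h1, h2⟩ := mem_filter.1 hs
    obtain ⟨h1', h2'⟩ := mem_filter.1 hs'
    have e2 : n₀ + Q * s + t ≡ n₀ + Q * s' + t [MOD p] := by
      unfold Nat.ModEq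
      rw [h2, h2']
    have e3 : Q * s ≡ Q * s' [MOD p] :=
      Nat.ModEq.add_left_cancel' n₀ (Nat.ModEq.add_right_cancel' t e2)
    have hco : Nat.gcd p Q = 1 := (Nat.Prime.coprime_iff_not_dvd (hPp p hp)).2
      (hQ p (hPp p hp) (hPz p hp).1)
    have e4 : s ≡ s' [MOD p] := Nat.ModEq.cancel_left_of_coprime hco e3
    exact Nat.ModEq.eq_of_lt_of_lt e4 (mem_range.1 h1) (mem_range.1 h1')
  have hCm : ∀ p ∈ P, ∀ s : ℕ, s % p ∈ C p ↔ ∃ t ∈ T, (n₀ + Q * s + t) % p = ρ p := by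
    intro p hp s
    have hp0 : 0 < p := (hPp p hp).pos
    have e1 : ∀ t, (n₀ + Q * (s % p) + t) % p = (n₀ + Q * s + t) % p := by
      intro t
      have : Q * (s % p) ≡ Q * s [MOD p] := Nat.ModEq.mul_left Q (Nat.mod_modEq s p)
      exact Nat.ModEq.add_right t (Nat.ModEq.add_left n₀ this)
    rw [hC]
    simp only [mem_filter, mem_range, Nat.mod_lt s hp0, true_and, e1]
  have hset : ((range N).filter (fun s => ∀ p : ℕ, p.Prime → z1 X < p → p ≤ yy ε X →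
      ∀ t ∈ T, (n₀ + Q * s + t) % p ≠ ρ p)) = (range N).filter fun s => ∀ p ∈ P, ¬ s % p ∈ C p := by
    ext s
    simp only [mem_filter]
    refine and_congr_right fun _ => ⟨?_, ?_⟩
    · intro h p hp h2
      obtain ⟨t, ht, h3⟩ := (hCm p hp s).1 h2
      exact h p (hPp p hp) (hPz p hp).1 (hPz p hp).2 t ht h3
    · intro h p hp h1 h2 t ht h3
      have hpP : p ∈ P := mem_filter.2 ⟨mem_Ioc.2 ⟨h1, h2⟩, hp⟩
      exact h p hpP ((hCm p hpP s).2 ⟨t, ht, h3⟩)
  -- estimates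
  have hk' : (T.card : ℝ) ≤ a := hT
  have hy' : ((yy ε X : ℕ) : ℝ) ≤ Real.exp (a ^ 2) := by
    rw [ha2]
    exact Nat.floor_le (Real.exp_pos _).le
  have hy1 : 1 ≤ yy ε X := by
    refine Nat.le_floor ?_
    push_cast
    exact Real.one_le_exp (by positivity)
  have hPcard : P.card ≤ yy ε X := by
    refine (card_filter_le _ _).trans ?_
    rw [Nat.card_Ioc]
    omega
  have hpa : ∀ p ∈ P, 2 * a ≤ p := by
    intro p hp
    have h1 : L / 4 < p := (Nat.floor_lt (by positivity)).1 (hPz p hp).1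
    have h2 : (10 : ℝ) ^ 7 ≤ a ^ 7 := pow_le_pow_left₀ (by norm_num) ha10 7
    have h3 : a * 10 ^ 7 ≤ a * a ^ 7 := mul_le_mul_of_nonneg_left h2 (by linarith)
    have h4 : a * a ^ 7 = a ^ 8 := by ring
    linarith
  have hg : ∀ p ∈ P, 0 ≤ ((C p).card : ℝ) / p ∧ ((C p).card : ℝ) / p ≤ 1 / 2 := by
    intro p hp
    have hp0 : (0 : ℝ) < p := by exact_mod_cast (hPp p hp).pos
    refine ⟨by positivity, ?_⟩
    rw [div_le_iff₀ hp0]
    have h1 : ((C p).card : ℝ) ≤ T.card := by exact_mod_cast hCk p hp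
    have h2 := hpa p hp
    linarith
  set κ : ℝ := ∑ p ∈ P, ((C p).card : ℝ) / p with hκ
  have hκ0 : 0 ≤ κ := sum_nonneg fun p hp => (hg p hp).1
  have hκ2 : κ ≤ 2 * a ^ 3 := by
    have e1 : κ ≤ ∑ p ∈ P, a * (p : ℝ)⁻¹ := by
      refine sum_le_sum fun p hp => ?_
      have hp0 : (0 : ℝ) < p := by exact_mod_cast (hPp p hp).pos
      rw [div_eq_mul_inv]
      refine mul_le_mul_of_nonneg_right ?_ (by positivity)
      have h1 : ((C p).card : ℝ) ≤ T.card := by exact_mod_cast hCk p hp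
      linarith
    have e2 : ∑ p ∈ P, a * (p : ℝ)⁻¹ ≤ a * (1 + a ^ 2) := by
      rw [← mul_sum]
      refine mul_le_mul_of_nonneg_left ?_ (by linarith)
      have f1 : ∑ p ∈ P, (p : ℝ)⁻¹ ≤ ∑ p ∈ Icc 1 (yy ε X), (p : ℝ)⁻¹ := by
        refine sum_le_sum_of_subset_of_nonneg ?_ fun p _ _ => by positivity
        intro p hp
        exact mem_Icc.2 ⟨(hPp p hp).one_lt.le, (hPz p hp).2⟩
      have f2 : ∑ p ∈ Icc 1 (yy ε X), (p : ℝ)⁻¹ = ((harmonic (yy ε X) : ℚ) : ℝ) := by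
        rw [harmonic_eq_sum_Icc]
        push_cast
        rfl
      have f3 := harmonic_le_one_add_log (yy ε X)
      have f4 : Real.log (yy ε X : ℝ) ≤ a ^ 2 := by
        have h0 : (0 : ℝ) < (yy ε X : ℕ) := by exact_mod_cast hy1
        rw [← Real.log_exp (a ^ 2)]
        exact Real.log_le_log h0 hy'
      linarith
    refine e1.trans (e2.trans ?_)
    nlinarith [mul_nonneg (by linarith : (0 : ℝ) ≤ a) (by nlinarith : (0 : ℝ) ≤ a ^ 2 - 1)]
  have hPi : Real.exp (-(2 * κ)) ≤ ∏ p ∈ P, (1 - ((C p).card : ℝ) / p) := by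
    have e1 : Real.exp (-(2 * κ)) = ∏ p ∈ P, Real.exp (-(2 * (((C p).card : ℝ) / p))) := by
      rw [← Real.exp_sum, sum_neg_distrib, ← mul_sum]
    rw [e1]
    exact prod_le_prod (fun p _ => (Real.exp_pos _).le) fun p hp => one_sub_ge (hg p hp).1 (hg p hp).2
  have hXe : ∀ c : ℝ, (X : ℝ) ^ c = Real.exp (L * c) := by
    intro c
    rw [Real.rpow_def_of_pos (by linarith)]
  have hN' : Real.exp (L / 4) ≤ (N : ℝ) := by
    refine le_trans (le_of_eq ?_) hXN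
    rw [hXe]
    congr 1
    ring
  obtain ⟨r, hr, hfin⟩ := brun_num (pg := ∏ p ∈ P, (1 - ((C p).card : ℝ) / p)) (kk := (T.card : ℝ))
    (y := (P.card : ℝ)) ha10 ha8 hκ0 hκ2 hPi (Nat.cast_nonneg _) hk' (Nat.cast_nonneg _)
    (le_trans (by exact_mod_cast hPcard) hy') hN'
  have hcore := brun_core hB hN P hPp C hCr T.card hCk r hr N
  have hX5 : (X : ℝ) ^ (1 / 5 : ℝ) = Real.exp (L / 5) := by
    rw [hXe]
    congr 1
    ring
  rw [hX5]
  refine hfin.trans (hcore.trans (le_of_eq ?_))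
  congr 1
  rw [← hset]

end Pool.Agent.V5helper81.LR
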