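import Pool.Agent.V5helper49.LR.Stm3

/-!
# Project LR, job CNT: counting by the Chinese remainder theorem
-/

set_option autoImplicit false

namespace Pool.Agent.V5helper81.LR

open Finset

lemma prod_dvd_coprime {K : Finset ℕ} (hK : ∀ p ∈ K, p.Prime) {p : ℕ} (hp : p.Prime) (h : p ∉ K) :
    p.Coprime (∏ q ∈ K, q) := by
  refine Nat.Coprime.prod_right fun q hq => ?_
  exact (Nat.coprime_primes hp (hK q hq)).2 fun e => h (e ▸ hq)

lemma prod_pos' {K : Finset ℕ} (hK : ∀ p ∈ K, p.Prime) : 0 < ∏ q ∈ K, q :=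
  Finset.prod_pos fun q hq => (hK q hq).pos

/-- the number of the residues modulo the product -/
lemma card_res (K : Finset ℕ) (hK : ∀ p ∈ K, p.Prime) (C : ℕ → Finset ℕ)
    (hC : ∀ p ∈ K, C p ⊆ range p) :
    ((range (∏ q ∈ K, q)).filter fun m => ∀ p ∈ K, m % p ∈ C p).card = ∏ p ∈ K, (C p).card := by
  classical
  induction K using Finset.induction_on with
  | empty => simp
  | insert p K hp ih =>
    have hpp : p.Prime := hK p (mem_insert_self _ _)
    have hK' : ∀ q ∈ K, q.Prime := fun q hq => hK q (mem_insert_of_mem hq)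
    have hco := prod_dvd_coprime hK' hpp hp
    have hM := prod_pos' hK'
    rw [prod_insert hp, prod_insert hp, ← ih hK' (fun q hq => hC q (mem_insert_of_mem hq)),
      ← card_product]
    refine Finset.card_bij (fun m _ => (m % p, m % ∏ q ∈ K, q)) ?_ ?_ ?_
    · intro m hm
      rw [mem_filter] at hm
      rw [mem_product, mem_filter, mem_range]
      refine ⟨hm.2 p (mem_insert_self _ _), Nat.mod_lt _ hM, fun q hq => ?_⟩
      rw [Nat.mod_mod_of_dvd _ (dvd_prod_of_mem _ hq)]
      exact hm.2 q (mem_insert_of_mem hq)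
    · intro m hm m' hm' h
      rw [mem_filter, mem_range] at hm hm'
      have h1 : m ≡ m' [MOD p] := (Prod.ext_iff.1 h).1
      have h2 : m ≡ m' [MOD ∏ q ∈ K, q] := (Prod.ext_iff.1 h).2
      have h3 := (Nat.modEq_and_modEq_iff_modEq_mul hco).1 ⟨h1, h2⟩
      exact Nat.ModEq.eq_of_lt_of_lt h3 hm.1 hm'.1
    · rintro ⟨a, b⟩ hab
      rw [mem_product, mem_filter, mem_range] at hab
      obtain ⟨ha, hb, hb'⟩ := hab
      have ha' : a < p := mem_range.1 (hC p (mem_insert_self _ _) ha)
      obtain ⟨k, hk1, hk2⟩ := Nat.chineseRemainder hco a b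
      refine ⟨k % (p * ∏ q ∈ K, q), ?_, ?_⟩
      · rw [mem_filter, mem_range]
        refine ⟨Nat.mod_lt _ (Nat.mul_pos hpp.pos hM), fun q hq => ?_⟩
        rcases mem_insert.1 hq with rfl | hq
        · rw [Nat.mod_mod_of_dvd _ (Dvd.intro _ rfl)]
          have : k % q = a := by rw [hk1, Nat.mod_eq_of_lt ha']
          rw [this]
          exact ha
        · have hd : q ∣ ∏ q ∈ K, q := dvd_prod_of_mem _ hq
          rw [Nat.mod_mod_of_dvd _ (hd.mul_left _)]
          have : k % q = b % q := by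
            have := hk2.of_dvd hd
            exact this
          rw [this]
          exact hb' q hq
      · refine Prod.ext ?_ ?_
        · change k % (p * ∏ q ∈ K, q) % p = a
          rw [Nat.mod_mod_of_dvd _ (Dvd.intro _ rfl), hk1, Nat.mod_eq_of_lt ha']
        · change k % (p * ∏ q ∈ K, q) % (∏ q ∈ K, q) = b
          rw [Nat.mod_mod_of_dvd _ (Dvd.intro_left _ rfl), hk2, Nat.mod_eq_of_lt hb]

/-- the number of the `s < N` in a class -/
lemma card_class (N M m : ℕ) (hM : 0 < M) (hm : m < M) :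
    |(((range N).filter fun s => s % M = m).card : ℝ) - (N : ℝ) / M| ≤ 1 := by
  have h1 : ((range N).filter fun s => s % M = m).card = N.count (· ≡ m [MOD M]) := by
    rw [Nat.count_eq_card_filter_range]
    congr 1
    ext s
    simp only [mem_filter, Nat.ModEq, Nat.mod_eq_of_lt hm]
  rw [h1, Nat.count_modEq_card _ hM]
  have hMr : (0 : ℝ) < M := by exact_mod_cast hM
  have h2 : (N : ℝ) / M = (N / M : ℕ) + (N % M : ℕ) / (M : ℝ) := by
    rw [div_eq_iff hMr.ne', add_mul, div_mul_cancel₀ _ hMr.ne']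
    have := Nat.div_add_mod N M
    have h3 : ((M * (N / M) + N % M : ℕ) : ℝ) = N := by exact_mod_cast this
    push_cast at h3
    linarith
  have h3 : (0 : ℝ) ≤ (N % M : ℕ) / (M : ℝ) := by positivity
  have h4 : ((N % M : ℕ) : ℝ) / (M : ℝ) ≤ 1 := by
    rw [div_le_one hMr]
    exact_mod_cast (Nat.mod_lt N hM).le
  rw [h2, abs_le]
  split_ifs <;> push_cast <;> constructor <;> linarith

theorem t_CNT : Pool.Agent.V5helper49.LR.S_CNT := by
  classical
  intro K hK C hC N
  set M := ∏ q ∈ K, q with hMdef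
  have hM : 0 < M := prod_pos' hK
  set R := (range M).filter fun m => ∀ p ∈ K, m % p ∈ C p with hR
  have hcard : R.card = ∏ p ∈ K, (C p).card := card_res K hK C hC
  have hdis : ((range N).filter fun s => ∀ p ∈ K, s % p ∈ C p).card =
      ∑ m ∈ R, ((range N).filter fun s => s % M = m).card := by
    rw [Finset.card_eq_sum_card_fiberwise (f := fun s => s % M) (t := R)]
    · refine sum_congr rfl fun m hm => ?_
      congr 1
      ext s
      simp only [mem_filter]
      constructor
      · rintro ⟨⟨h1, _⟩, h2⟩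
        exact ⟨h1, h2⟩
      · rintro ⟨h1, h2⟩
        refine ⟨⟨h1, fun p hp => ?_⟩, h2⟩
        have h3 := (mem_filter.1 hm).2 p hp
        rw [← h2, Nat.mod_mod_of_dvd _ (dvd_prod_of_mem _ hp)] at h3
        exact h3
    · intro s hs
      have hs' := (mem_filter.1 (Finset.mem_coe.1 hs)).2
      refine Finset.mem_coe.2 (mem_filter.2 ⟨mem_range.2 (Nat.mod_lt _ hM), fun p hp => ?_⟩)
      change s % M % p ∈ C p
      rw [Nat.mod_mod_of_dvd _ (dvd_prod_of_mem _ hp)]
      exact hs' p hp
  have hprod : ∏ p ∈ K, ((C p).card : ℝ) / p = (R.card : ℝ) / M := by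
    rw [prod_div_distrib, hcard, hMdef]
    push_cast
    rfl
  rw [hprod]
  have hR' : ∏ p ∈ K, ((C p).card : ℝ) = R.card := by
    rw [hcard]
    push_cast
    rfl
  rw [hR']
  have e1 : (((range N).filter fun s => ∀ p ∈ K, s % p ∈ C p).card : ℝ) - N * ((R.card : ℝ) / M) =
      ∑ m ∈ R, ((((range N).filter fun s => s % M = m).card : ℝ) - (N : ℝ) / M) := by
    rw [hdis, sum_sub_distrib, sum_const, nsmul_eq_mul]
    push_cast
    ring
  rw [e1]
  calc |∑ m ∈ R, ((((range N).filter fun s => s % M = m).card : ℝ) - (N : ℝ) / M)|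
      ≤ ∑ m ∈ R, |(((range N).filter fun s => s % M = m).card : ℝ) - (N : ℝ) / M| :=
        abs_sum_le_sum_abs _ _
    _ ≤ ∑ m ∈ R, (1 : ℝ) := sum_le_sum fun m hm =>
        card_class N M m hM (mem_range.1 (mem_filter.1 hm).1)
    _ = R.card := by simp

end Pool.Agent.V5helper81.LR
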